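import Mathlib
import Pool.Agent.helper99.LC.Defs

/-!
# Paths in a page and the push lemma
-/

set_option autoImplicit false

namespace Pool.Agent.helper83.LC

open Pool.Agent.helper99.LC

variable {W : Type} [Group W] {S : Type} {P : Page W S}

theorem pathIn_left {Z : W → Prop} {x y : W} (h : P.PathIn Z x y) : Z x := by
  induction h with
  | refl hx => exact hx
  | step _ _ _ _ ih => exact ih

theorem pathIn_right {Z : W → Prop} {x y : W} (h : P.PathIn Z x y) : Z y := by
  cases h with
  | refl hx => exact hx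
  | step _ _ _ hy => exact hy

theorem pathIn_trans {Z : W → Prop} {x y z : W} (h : P.PathIn Z x y) (h' : P.PathIn Z y z) :
    P.PathIn Z x z := by
  induction h' with
  | refl _ => exact h
  | step y' s _ hy ih => exact Page.PathIn.step _ _ _ ih hy

theorem pathIn_one {Z : W → Prop} {x : W} (s : S) (hx : Z x) (hy : Z (x * P.gen s)) :
    P.PathIn Z x (x * P.gen s) :=
  Page.PathIn.step _ _ _ (Page.PathIn.refl _ hx) hy

theorem pathIn_symm {Z : W → Prop} {x y : W} (h : P.PathIn Z x y) : P.PathIn Z y x := by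
  induction h with
  | refl hx => exact Page.PathIn.refl _ hx
  | step y' s h hy ih =>
    refine pathIn_trans ?_ ih
    have h1 : y' = y' * P.gen s * P.gen s := by rw [mul_assoc, P.gen_mul_self, mul_one]
    have h2 := pathIn_one (P := P) s hy (by rw [← h1]; exact pathIn_right h)
    rwa [← h1] at h2

theorem pathIn_mono {Z Z' : W → Prop} (hZ : ∀ w, Z w → Z' w) {x y : W} (h : P.PathIn Z x y) :
    P.PathIn Z' x y := by
  induction h with
  | refl hx => exact Page.PathIn.refl _ (hZ _ hx)
  | step y' s _ hy ih => exact Page.PathIn.step _ _ _ ih (hZ _ hy)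

theorem exists_pathIn_univ (x : W) : ∀ (n : ℕ) (w : W), P.len w = n →
    P.PathIn (fun _ => True) x (x * w) := by
  intro n
  induction n with
  | zero =>
    intro w hw
    rw [P.eq_one_of_len w hw, mul_one]
    exact Page.PathIn.refl _ trivial
  | succ n ih =>
    intro w hw
    have hw1 : w ≠ 1 := by
      rintro rfl
      rw [P.len_one] at hw
      omega
    obtain ⟨s, hs⟩ := P.exists_desc w hw1
    have h := Page.PathIn.step (P := P) _ _ s (ih (w * P.gen s) (by omega)) trivial
    rwa [← mul_assoc, mul_assoc (x * w), P.gen_mul_self, mul_one] at h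

theorem pathIn_univ (x y : W) : P.PathIn (fun _ => True) x y := by
  have h := exists_pathIn_univ (P := P) x _ (x⁻¹ * y) rfl
  rwa [mul_inv_cancel_left] at h

/-- Along a path, a bounded-below condition holds for some bound. -/
theorem exists_bound {Z : W → Prop} (h : W → ℤ) {x y : W} (hp : P.PathIn Z x y) :
    ∃ n : ℤ, P.PathIn (fun w => Z w ∧ n ≤ h w) x y := by
  induction hp with
  | refl hx => exact ⟨h x, Page.PathIn.refl _ ⟨hx, le_refl _⟩⟩
  | step y' s _ hy ih =>
    obtain ⟨n, hn⟩ := ih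
    refine ⟨min n (h (y' * P.gen s)), ?_⟩
    refine Page.PathIn.step _ _ _ (pathIn_mono (fun w hw => ⟨hw.1, (min_le_left _ _).trans hw.2⟩) hn)
      ⟨hy, min_le_right _ _⟩

/-- The push lemma. -/
theorem push {Z : W → Prop} (h : W → ℤ)
    (hstep : ∀ g s, h (g * P.gen s) = h g + 1 ∨ h (g * P.gen s) = h g - 1) (n : ℤ)
    (loc : ∀ g, h g = n → Z g → ∀ s t, Z (g * P.gen s) → Z (g * P.gen t) →
      h (g * P.gen s) = n + 1 → h (g * P.gen t) = n + 1 →
      P.PathIn (fun w => Z w ∧ n + 1 ≤ h w) (g * P.gen s) (g * P.gen t))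
    {x y : W} (hp : P.PathIn (fun w => Z w ∧ n ≤ h w) x y) (hx : n + 1 ≤ h x) (hy : n + 1 ≤ h y) :
    P.PathIn (fun w => Z w ∧ n + 1 ≤ h w) x y := by
  have key : (n + 1 ≤ h y → P.PathIn (fun w => Z w ∧ n + 1 ≤ h w) x y) ∧
      (h y = n → ∀ s, Z (y * P.gen s) → h (y * P.gen s) = n + 1 →
        P.PathIn (fun w => Z w ∧ n + 1 ≤ h w) x (y * P.gen s)) := by
    clear hy
    induction hp with
    | refl hx' =>
      refine ⟨fun _ => Page.PathIn.refl _ ⟨hx'.1, hx⟩, fun h' => ?_⟩
      omega
    | step y s hpy hy ih =>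
      have hyZ := pathIn_right hpy
      by_cases hc : n + 1 ≤ h y
      · have hp' := ih.1 hc
        refine ⟨fun h' => Page.PathIn.step _ _ _ hp' ⟨hy.1, h'⟩, fun h' t ht ht' => ?_⟩
        have h1 : y * P.gen s * P.gen s = y := by rw [mul_assoc, P.gen_mul_self, mul_one]
        have h2 := loc (y * P.gen s) h' hy.1 s t (by rw [h1]; exact hyZ.1) ht
          (by
            rw [h1]
            rcases hstep y s with h3 | h3 <;> omega) ht'
        rw [h1] at h2
        exact pathIn_trans hp' h2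
      · have h1 : h y = n := by have := hyZ.2; omega
        have h2 : h (y * P.gen s) = n + 1 := by
          have := hy.2
          rcases hstep y s with h3 | h3 <;> omega
        refine ⟨fun _ => ih.2 h1 s hy.1 h2, fun h' => ?_⟩
        omega
  exact key.1 hy

/-- Iterated push. -/
theorem push_iterate {Z : W → Prop} (h : W → ℤ)
    (hstep : ∀ g s, h (g * P.gen s) = h g + 1 ∨ h (g * P.gen s) = h g - 1) (m : ℤ)
    (loc : ∀ n, n < m → ∀ g, h g = n → Z g → ∀ s t, Z (g * P.gen s) → Z (g * P.gen t) →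
      h (g * P.gen s) = n + 1 → h (g * P.gen t) = n + 1 →
      P.PathIn (fun w => Z w ∧ n + 1 ≤ h w) (g * P.gen s) (g * P.gen t))
    {x y : W} (hx : m ≤ h x) (hy : m ≤ h y) (hp : P.PathIn Z x y) :
    P.PathIn (fun w => Z w ∧ m ≤ h w) x y := by
  obtain ⟨n, hn⟩ := exists_bound h hp
  have key : ∀ k : ℕ, ∀ n : ℤ, (m - n).toNat = k → P.PathIn (fun w => Z w ∧ n ≤ h w) x y →
      P.PathIn (fun w => Z w ∧ m ≤ h w) x y := by
    intro k
    induction k with
    | zero =>
      intro n hn hp
      exact pathIn_mono (fun w hw => ⟨hw.1, by have := hw.2; omega⟩) hp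
    | succ k ih =>
      intro n hn hp
      exact ih (n + 1) (by omega)
        (push h hstep n (loc n (by omega)) hp (by omega) (by omega))
  exact key _ n rfl hn

/-- Local condition from a chain of commuting ascents. -/
theorem loc_of_chain {Z : W → Prop} (h : W → ℤ) (n : ℤ) (g : W) (A : S → Prop) (R : S → S → Prop)
    (hA : ∀ a, A a → Z (g * P.gen a) ∧ h (g * P.gen a) = n + 1)
    (hR : ∀ a b, A a → A b → R a b → P.gen a * P.gen b = P.gen b * P.gen a ∧
      Z (g * P.gen a * P.gen b) ∧ h (g * P.gen a * P.gen b) = n + 2) {s t : S} (hs : A s)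
    (hst : Relation.ReflTransGen (fun a b => A a ∧ A b ∧ R a b) s t) :
    P.PathIn (fun w => Z w ∧ n + 1 ≤ h w) (g * P.gen s) (g * P.gen t) := by
  induction hst with
  | refl => exact Page.PathIn.refl _ ⟨(hA s hs).1, (hA s hs).2.ge⟩
  | tail _ hab ih =>
    rename_i a b _
    obtain ⟨ha, hb, hr⟩ := hab
    obtain ⟨hc, hz, hh⟩ := hR a b ha hb hr
    refine pathIn_trans ih ?_
    have h1 : P.PathIn (fun w => Z w ∧ n + 1 ≤ h w) (g * P.gen a) (g * P.gen a * P.gen b) :=
      pathIn_one b ⟨(hA a ha).1, (hA a ha).2.ge⟩ ⟨hz, by omega⟩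
    have h2 : g * P.gen a * P.gen b * P.gen a = g * P.gen b := by
      rw [mul_assoc, mul_assoc, ← hc, ← mul_assoc (P.gen a), P.gen_mul_self, one_mul]
    have h3 := pathIn_one (P := P) (Z := fun w => Z w ∧ n + 1 ≤ h w) (x := g * P.gen a * P.gen b) a
      ⟨hz, by omega⟩ (by rw [h2]; exact ⟨(hA b hb).1, (hA b hb).2.ge⟩)
    rw [h2] at h3
    exact pathIn_trans h1 h3

end Pool.Agent.helper83.LC
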