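import Mathlib
import Pool.Agent.helper99.LC.RACGDefs

/-!
# Right angled Coxeter groups: descents, exchange, prefixes

Tools for the page of MP_c915fc_gt.
-/

set_option autoImplicit false

namespace Pool.Agent.helper83.LC

open Pool.Agent.helper99.LC

variable {S : Type} [DecidableEq S] (L : SimpleGraph S) [DecidableRel L.Adj]

theorem gen_mul_self (s : S) : gen L s * gen L s = 1 := (raSys L).simple_mul_simple_self s

theorem gen_inv (s : S) : (gen L s)⁻¹ = gen L s := (raSys L).inv_simple s

theorem gen_mul_cancel (s : S) (g : RW L) : gen L s * (gen L s * g) = g := by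
  rw [← mul_assoc, gen_mul_self, one_mul]

theorem mul_gen_cancel (s : S) (g : RW L) : g * gen L s * gen L s = g := by
  rw [mul_assoc, gen_mul_self, mul_one]

theorem liftable {G : Type*} [Group G] (f : S → G) (h1 : ∀ s, f s * f s = 1)
    (h2 : ∀ s t, L.Adj s t → f s * f t = f t * f s) : (raMat L).IsLiftable f := by
  intro i j
  by_cases hij : i = j
  · subst hij
    simp [raMat, h1]
  · by_cases ha : L.Adj i j
    · have : (raMat L).M i j = 2 := by simp [raMat, hij, ha]
      rw [show (raMat L) i j = 2 from this, pow_two]
      calc f i * f j * (f i * f j) = f i * (f j * f i) * f j := by group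
        _ = f i * (f i * f j) * f j := by rw [h2 i j ha]
        _ = (f i * f i) * (f j * f j) := by group
        _ = 1 := by rw [h1, h1, one_mul]
    · have : (raMat L).M i j = 0 := by simp [raMat, hij, ha]
      rw [show (raMat L) i j = 0 from this, pow_zero]

/-- Lifting of maps on generators. -/
noncomputable def lift {G : Type*} [Group G] (f : S → G) (h1 : ∀ s, f s * f s = 1)
    (h2 : ∀ s t, L.Adj s t → f s * f t = f t * f s) : RW L →* G :=
  (raSys L).lift ⟨f, liftable L f h1 h2⟩

theorem lift_gen {G : Type*} [Group G] (f : S → G) (h1 : ∀ s, f s * f s = 1)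
    (h2 : ∀ s t, L.Adj s t → f s * f t = f t * f s) (s : S) :
    lift L f h1 h2 (gen L s) = f s :=
  (raSys L).lift_apply_simple (liftable L f h1 h2) s

theorem gen_comm {s t : S} (h : L.Adj s t) : gen L s * gen L t = gen L t * gen L s := by
  have hne : s ≠ t := h.ne
  have h2 : (gen L s * gen L t) ^ 2 = 1 := by
    have := (raSys L).simple_mul_simple_pow s t
    have h3 : (raMat L).M s t = 2 := by simp [raMat, hne, h]
    rw [show (raMat L) s t = 2 from h3] at this
    exact this
  have h3 : gen L s * gen L t = (gen L s * gen L t)⁻¹ := by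
    rw [eq_inv_iff_mul_eq_one, ← pow_two, h2]
  rw [h3, mul_inv_rev, gen_inv, gen_inv]

theorem gen_induction {p : RW L → Prop} (h1 : p 1) (h2 : ∀ s g, p g → p (gen L s * g))
    (g : RW L) : p g :=
  (raSys L).simple_induction_left g h1 fun g s hg => h2 s g hg

/-! ### Length -/

theorem len_one : rlen L 1 = 0 := (raSys L).length_one

theorem eq_one_of_len {g : RW L} (h : rlen L g = 0) : g = 1 := (raSys L).length_eq_zero_iff.1 h

theorem len_inv (g : RW L) : rlen L g⁻¹ = rlen L g := (raSys L).length_inv g

theorem len_mul_le (g h : RW L) : rlen L (g * h) ≤ rlen L g + rlen L h := (raSys L).length_mul_le g h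

theorem len_gen (s : S) : rlen L (gen L s) = 1 := (raSys L).length_simple s

theorem len_gen_mul (s : S) (g : RW L) :
    rlen L (gen L s * g) = rlen L g + 1 ∨ rlen L (gen L s * g) + 1 = rlen L g :=
  (raSys L).length_simple_mul g s

/-- Left descents. -/
def Desc (g : RW L) (s : S) : Prop := rlen L (gen L s * g) + 1 = rlen L g

theorem not_desc {g : RW L} {s : S} (h : ¬ Desc L g s) : rlen L (gen L s * g) = rlen L g + 1 :=
  (len_gen_mul L s g).resolve_right h

theorem not_desc_of_lt {g : RW L} {s : S} (h : rlen L g < rlen L (gen L s * g)) : ¬ Desc L g s := by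
  intro h'; unfold Desc at h'; omega

theorem desc_of_lt {g : RW L} {s : S} (h : rlen L (gen L s * g) < rlen L g) : Desc L g s := by
  rcases len_gen_mul L s g with h' | h'
  · omega
  · exact h'

theorem not_desc_one (s : S) : ¬ Desc L 1 s := by
  intro h; unfold Desc at h; rw [len_one] at h; omega

theorem exists_desc {g : RW L} (h : g ≠ 1) : ∃ s, Desc L g s := by
  obtain ⟨s, hs⟩ := (raSys L).exists_leftDescent_of_ne_one h
  exact ⟨s, desc_of_lt L hs⟩

theorem desc_gen_mul {g : RW L} {s : S} : Desc L (gen L s * g) s ↔ ¬ Desc L g s := by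
  unfold Desc
  rw [gen_mul_cancel]
  rcases len_gen_mul L s g with h | h <;> omega

/-! ### The reflection cocycle -/

/-- The action on `W × ZMod 2`. -/
noncomputable def refl (s : S) : Equiv.Perm (RW L × ZMod 2) where
  toFun p := (gen L s * p.1 * gen L s, by classical exact p.2 + if p.1 = gen L s then 1 else 0)
  invFun p := (gen L s * p.1 * gen L s, by classical exact p.2 + if p.1 = gen L s then 1 else 0)
  left_inv := by
    classical
    rintro ⟨g, a⟩
    have h : gen L s * g * gen L s = gen L s ↔ g = gen L s := by
      constructor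
      · intro h
        have := congrArg (fun x => gen L s * x * gen L s) h
        simpa [mul_assoc, gen_mul_self, gen_mul_cancel] using this
      · rintro rfl
        rw [gen_mul_self, one_mul]
    simp only [h, Prod.mk.injEq]
    refine ⟨by simp [mul_assoc, gen_mul_self, gen_mul_cancel], ?_⟩
    split_ifs
    · rw [add_assoc, show (1 : ZMod 2) + 1 = 0 from rfl, add_zero]
    · simp
  right_inv := by
    classical
    rintro ⟨g, a⟩
    have h : gen L s * g * gen L s = gen L s ↔ g = gen L s := by
      constructor
      · intro h
        have := congrArg (fun x => gen L s * x * gen L s) h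
        simpa [mul_assoc, gen_mul_self, gen_mul_cancel] using this
      · rintro rfl
        rw [gen_mul_self, one_mul]
    simp only [h, Prod.mk.injEq]
    refine ⟨by simp [mul_assoc, gen_mul_self, gen_mul_cancel], ?_⟩
    split_ifs
    · rw [add_assoc, show (1 : ZMod 2) + 1 = 0 from rfl, add_zero]
    · simp

open Classical in
theorem refl_apply (s : S) (g : RW L) (a : ZMod 2) :
    refl L s (g, a) = (gen L s * g * gen L s, a + if g = gen L s then 1 else 0) := by
  simp [refl]

theorem refl_sq (s : S) : refl L s * refl L s = 1 := by
  ext1 p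
  exact (refl L s).left_inv p

theorem conj_eq_of_comm {s t : S} (h : L.Adj s t) (g : RW L) :
    gen L t * g * gen L t = gen L s ↔ g = gen L s := by
  have hc := gen_comm L h
  constructor
  · intro h'
    have := congrArg (fun x => gen L t * x * gen L t) h'
    simp only [mul_assoc, gen_mul_self, gen_mul_cancel, mul_one] at this
    rw [this, hc, gen_mul_cancel]
  · rintro rfl
    rw [← hc, mul_gen_cancel]

theorem refl_comm (s t : S) (h : L.Adj s t) :
    refl L s * refl L t = refl L t * refl L s := by
  classical
  ext1 ⟨g, a⟩
  rw [Equiv.Perm.mul_apply, Equiv.Perm.mul_apply, refl_apply, refl_apply, refl_apply, refl_apply]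
  simp only [conj_eq_of_comm L h, conj_eq_of_comm L h.symm, Prod.mk.injEq]
  constructor
  · have hc := gen_comm L h
    calc gen L s * (gen L t * g * gen L t) * gen L s
        = (gen L s * gen L t) * g * (gen L t * gen L s) := by group
      _ = (gen L t * gen L s) * g * (gen L s * gen L t) := by rw [hc]
      _ = _ := by group
  · ring

/-- The action of the group on `W × ZMod 2`. -/
noncomputable def act : RW L →* Equiv.Perm (RW L × ZMod 2) :=
  lift L (refl L) (refl_sq L) (refl_comm L)

theorem act_gen (s : S) : act L (gen L s) = refl L s := lift_gen L _ _ _ s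

theorem act_apply (g t : RW L) (a : ZMod 2) :
    act L g (t, a) = (g * t * g⁻¹, a + (act L g (t, 0)).2) := by
  induction g using gen_induction L generalizing t a with
  | h1 => simp
  | h2 s g ih =>
    rw [map_mul, Equiv.Perm.mul_apply, Equiv.Perm.mul_apply, ih, ih t 0, act_gen, refl_apply,
      refl_apply]
    simp only [Prod.mk.injEq, mul_inv_rev, gen_inv]
    refine ⟨by group, by ring⟩

/-- The parity of the reflection `t` in a word of `g`. -/
noncomputable def par (g t : RW L) : ZMod 2 := (act L g⁻¹ (t, 0)).2

theorem par_mul (g h t : RW L) : par L (g * h) t = par L g t + par L h (g⁻¹ * t * g) := by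
  unfold par
  rw [mul_inv_rev, map_mul, Equiv.Perm.mul_apply, act_apply L g⁻¹ t 0, act_apply L h⁻¹]
  simp

theorem par_one (t : RW L) : par L 1 t = 0 := by
  simp [par]

open Classical in
theorem par_gen (s : S) (t : RW L) : par L (gen L s) t = if t = gen L s then 1 else 0 := by
  simp [par, gen_inv, act_gen, refl_apply]

theorem par_gen_mul (s : S) (g t : RW L) : par L (gen L s * g) t =
    par L (gen L s) t + par L g (gen L s * t * gen L s) := by
  rw [par_mul, gen_inv]

open Classical in
theorem par_wordProd (ω : List S) (t : RW L) :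
    par L ((raSys L).wordProd ω) t = (((raSys L).leftInvSeq ω).count t : ℕ) := by
  induction ω generalizing t with
  | nil => simp [par_one]
  | cons s ω ih =>
    rw [CoxeterSystem.wordProd_cons, CoxeterSystem.leftInvSeq]
    have h1 := par_gen_mul L s ((raSys L).wordProd ω) t
    rw [show (raSys L).simple s = gen L s from rfl, h1, ih, par_gen, List.count_cons]
    have h2 : List.count t (List.map (MulAut.conj (gen L s)) ((raSys L).leftInvSeq ω)) =
        List.count (gen L s * t * gen L s) ((raSys L).leftInvSeq ω) := by
      have h3 : t = MulAut.conj (gen L s) (gen L s * t * gen L s) := by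
        simp [MulAut.conj_apply, gen_inv, mul_assoc, gen_mul_self, gen_mul_cancel]
      conv_lhs => rw [h3]
      exact List.count_map_of_injective _ _ (MulAut.conj (gen L s)).injective _
    rw [h2]
    by_cases h : t = gen L s
    · have h' : (gen L s == t) = true := by rw [h]; exact beq_self_eq_true _
      rw [if_pos h, if_pos h']
      push_cast
      ring
    · have h' : ¬ (gen L s == t) = true := by
        intro h''
        exact h (beq_iff_eq.1 h'').symm
      rw [if_neg h, if_neg h']
      push_cast
      ring

open Classical in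
theorem par_of_mem {ω : List S} (hω : (raSys L).IsReduced ω) {t : RW L} :
    par L ((raSys L).wordProd ω) t = 1 ↔ t ∈ (raSys L).leftInvSeq ω := by
  rw [par_wordProd]
  have hn := hω.nodup_leftInvSeq
  by_cases h : t ∈ (raSys L).leftInvSeq ω
  · rw [List.count_eq_one_of_mem hn h]
    simp [h]
  · rw [List.count_eq_zero_of_not_mem h]
    simp [h]

/-- a reflection of odd multiplicity shortens -/
theorem len_lt_of_par {g t : RW L} (h : par L g t = 1) : rlen L (t * g) < rlen L g := by
  obtain ⟨ω, hω, rfl⟩ := (raSys L).exists_isReduced g
  exact ((raSys L).isLeftInversion_of_mem_leftInvSeq hω ((par_of_mem L hω).1 h)).2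

theorem desc_iff_par {g : RW L} {s : S} : Desc L g s ↔ par L g (gen L s) = 1 := by
  constructor
  · intro h
    obtain ⟨ω, hω, hg⟩ := (raSys L).exists_isReduced (gen L s * g)
    have h1 : (raSys L).wordProd (s :: ω) = g := by
      rw [CoxeterSystem.wordProd_cons, ← hg]
      exact gen_mul_cancel L s g
    have h2 : (raSys L).IsReduced (s :: ω) := by
      unfold CoxeterSystem.IsReduced
      rw [h1]
      have h3 : (raSys L).length (gen L s * g) = ω.length := by rw [hg]; exact hω
      have h4 : (raSys L).length (gen L s * g) + 1 = (raSys L).length g := h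
      simp only [List.length_cons]
      omega
    rw [← h1, par_of_mem L h2, CoxeterSystem.leftInvSeq]
    exact List.mem_cons_self
  · intro h
    exact desc_of_lt L (len_lt_of_par L h)

theorem gen_injective (h : ∀ s t : S, gen L s = gen L t → s = t) : Function.Injective (gen L) :=
  fun s t => h s t

/-- The parity homomorphism counting a letter. -/
noncomputable def cnt (s : S) : RW L →* Multiplicative (ZMod 2) :=
  lift L (fun t => if t = s then Multiplicative.ofAdd 1 else 1)
    (fun t => by
      split_ifs
      · rfl
      · simp)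
    (fun t u _ => mul_comm _ _)

theorem cnt_gen (s t : S) : cnt L s (gen L t) = if t = s then Multiplicative.ofAdd 1 else 1 :=
  lift_gen L _ _ _ t

theorem gen_inj {s t : S} (h : gen L s = gen L t) : s = t := by
  by_contra hne
  have h1 := cnt_gen L t s
  rw [if_neg hne, h, cnt_gen, if_pos rfl] at h1
  exact absurd h1 (by decide)

/-- For commuting distinct generators, descents persist. -/
theorem desc_comm {g : RW L} {s t : S} (h : L.Adj s t) :
    Desc L (gen L s * g) t ↔ Desc L g t := by
  rw [desc_iff_par, desc_iff_par, par_gen_mul, par_gen, if_neg, (conj_eq_of_comm L h.symm _).2 rfl,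
    zero_add]
  intro h'
  exact h.ne (gen_inj L h').symm

/-- Descents of `g` are letters of every word of `g`. -/
theorem mem_of_desc {ω : List S} {s : S} (h : Desc L ((raSys L).wordProd ω) s) : s ∈ ω := by
  classical
  rw [desc_iff_par, par_wordProd] at h
  have h1 : gen L s ∈ (raSys L).leftInvSeq ω := by
    by_contra h'
    rw [List.count_eq_zero_of_not_mem h'] at h
    simp at h
  clear h
  have key : ∀ t ∈ (raSys L).leftInvSeq ω, ∃ u ∈ ω, cnt L s t = cnt L s (gen L u) := by
    clear h1
    induction ω with
    | nil => simp
    | cons a ω ih =>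
      intro t ht
      rw [CoxeterSystem.leftInvSeq, List.mem_cons, List.mem_map] at ht
      rcases ht with rfl | ⟨t', ht', rfl⟩
      · exact ⟨a, List.mem_cons_self, rfl⟩
      · obtain ⟨u, hu, hu'⟩ := ih t' ht'
        refine ⟨u, List.mem_cons_of_mem _ hu, ?_⟩
        rw [← hu', MulAut.conj_apply, map_mul, map_mul, map_inv, mul_right_comm, mul_inv_cancel,
          one_mul]
  obtain ⟨u, hu, hu'⟩ := key _ h1
  rw [cnt_gen, cnt_gen, if_pos rfl] at hu'
  split_ifs at hu' with h2
  · rwa [← h2]
  · exact absurd hu' (by decide)

end Pool.Agent.helper83.LC
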