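import Mathlib
import Pool.Agent.helper99.LC.RACGDefs

/-!
# Finite checks on the graph `L14`
-/

set_option autoImplicit false

namespace Pool.Agent.helper83.LC

open Pool.Agent.helper99.LC

/-- Union of the neighbourhoods of the elements of the bit set `R`. -/
def nbs (R : ℕ) : ℕ :=
  (List.range 14).foldl (fun acc i => if R.testBit i then acc ||| tbl.getD i 0 else acc) 0

theorem testBit_foldl (R : ℕ) (l : List ℕ) (acc j : ℕ) :
    (l.foldl (fun acc i => if R.testBit i then acc ||| tbl.getD i 0 else acc) acc).testBit j = true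
      ↔ acc.testBit j = true ∨ ∃ i ∈ l, R.testBit i = true ∧ (tbl.getD i 0).testBit j = true := by
  induction l generalizing acc with
  | nil => simp
  | cons a l ih =>
    rw [List.foldl_cons, ih]
    by_cases h : R.testBit a = true
    · rw [if_pos h, Nat.testBit_or, Bool.or_eq_true]
      constructor
      · rintro ((h1 | h1) | ⟨i, hi, h1⟩)
        · exact Or.inl h1
        · exact Or.inr ⟨a, List.mem_cons_self, h, h1⟩
        · exact Or.inr ⟨i, List.mem_cons_of_mem _ hi, h1⟩
      · rintro (h1 | ⟨i, hi, h1⟩)
        · exact Or.inl (Or.inl h1)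
        · rcases List.mem_cons.1 hi with rfl | hi
          · exact Or.inl (Or.inr h1.2)
          · exact Or.inr ⟨i, hi, h1⟩
    · rw [if_neg h]
      constructor
      · rintro (h1 | ⟨i, hi, h1⟩)
        · exact Or.inl h1
        · exact Or.inr ⟨i, List.mem_cons_of_mem _ hi, h1⟩
      · rintro (h1 | ⟨i, hi, h1⟩)
        · exact Or.inl h1
        · rcases List.mem_cons.1 hi with rfl | hi
          · exact absurd h1.1 h
          · exact Or.inr ⟨i, hi, h1⟩

theorem testBit_nbs (R j : ℕ) : (nbs R).testBit j = true ↔
    ∃ i, i < 14 ∧ R.testBit i = true ∧ (tbl.getD i 0).testBit j = true := by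
  unfold nbs
  rw [testBit_foldl]
  simp

/-- One step of the growth of `R` inside `A`. -/
def grow (A R : ℕ) : ℕ := R ||| (A &&& nbs R)

/-- Connectivity check. -/
def conn (A : ℕ) : Bool :=
  (List.range 14).all fun i => !A.testBit i || (Nat.iterate (grow A) 14 (2 ^ i) == A)

/-- Being joined inside a set of vertices. -/
def Joined (A : Fin 14 → Prop) : Fin 14 → Fin 14 → Prop :=
  Relation.ReflTransGen fun a b => A a ∧ A b ∧ L14.Adj a b

theorem joined_of_iterate (A : ℕ) (hA : A < 2 ^ 14) (i : Fin 14) (hi : A.testBit i = true) (k : ℕ) :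
    ∀ j : ℕ, (Nat.iterate (grow A) k (2 ^ i.1)).testBit j = true →
      ∃ hj : j < 14, A.testBit j = true ∧
        Joined (fun a => A.testBit a.1 = true) i ⟨j, hj⟩ := by
  induction k with
  | zero =>
    intro j hj
    rw [Nat.iterate, Nat.testBit_two_pow] at hj
    have h : i.1 = j := by simpa using hj
    subst h
    exact ⟨i.2, hi, Relation.ReflTransGen.refl⟩
  | succ k ih =>
    intro j hj
    rw [Function.iterate_succ_apply', grow, Nat.testBit_or, Bool.or_eq_true, Nat.testBit_and,
      Bool.and_eq_true, testBit_nbs] at hj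
    rcases hj with hj | ⟨hj1, a, ha, ha1, ha2⟩
    · exact ih j hj
    · have hj : j < 14 := by
        by_contra h
        have := Nat.testBit_lt_two_pow (x := A) (i := j)
          (lt_of_lt_of_le hA (Nat.pow_le_pow_right (by norm_num) (by omega)))
        rw [this] at hj1
        exact absurd hj1 (by decide)
      obtain ⟨ha', haA, hJ⟩ := ih a ha1
      refine ⟨hj, hj1, hJ.tail ⟨haA, hj1, ?_⟩⟩
      exact ha2

theorem joined_of_conn {A : ℕ} (hA : A < 2 ^ 14) (h : conn A = true) (i j : Fin 14)
    (hi : A.testBit i = true) (hj : A.testBit j = true) :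
    Joined (fun a => A.testBit a.1 = true) i j := by
  unfold conn at h
  rw [List.all_eq_true] at h
  have h1 := h i.1 (List.mem_range.2 i.2)
  rw [hi, Bool.not_true, Bool.false_or, beq_iff_eq] at h1
  have h2 := joined_of_iterate A hA i hi 14 j.1
  rw [h1] at h2
  exact (h2 hj).2.2

/-- Clique check of a bit set. -/
def clq (A : ℕ) : Bool :=
  (List.range 14).all fun i => !A.testBit i ||
    ((List.range 14).all fun j => !A.testBit j || i == j || (tbl.getD i 0).testBit j)

/-- no element of `A` adjacent to both `s` and `t`, `s, t ∉ A`. -/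
def okp (A s t : ℕ) : Bool :=
  !A.testBit s && !A.testBit t && (A &&& tbl.getD s 0 &&& tbl.getD t 0 == 0)

/-- checks (L4), (L5) for one set -/
def chk (A : ℕ) : Bool :=
  !clq A || (conn (2 ^ 14 - 1 - A) && (okp A 1 2 || okp A 4 5))

theorem chk_all' : ∀ a < 128, ∀ b < 128, chk (a + 128 * b) = true := by
  decide +kernel

theorem chk_all (A : ℕ) (hA : A < 2 ^ 14) : chk A = true := by
  have h := chk_all' (A % 128) (Nat.mod_lt _ (by norm_num)) (A / 128)
    (Nat.div_lt_of_lt_mul (by omega))
  rwa [Nat.mod_add_div] at h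

end Pool.Agent.helper83.LC
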