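import Mathlib
import Pool.Agent.helper83.LC.Checks

/-!
# Finite checks on the graph `L14`, in terms of predicates
-/

set_option autoImplicit false

namespace Pool.Agent.helper83.LC

open Pool.Agent.helper99.LC

open Classical in
/-- The bit set of a predicate. -/
noncomputable def code (σ : Fin 14 → Prop) : ℕ := Nat.ofBits fun i => decide (σ i)

theorem code_lt (σ : Fin 14 → Prop) : code σ < 2 ^ 14 := Nat.ofBits_lt_two_pow _

theorem testBit_code (σ : Fin 14 → Prop) (i : Fin 14) : (code σ).testBit i.1 = true ↔ σ i := by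
  classical
  unfold code
  rw [Nat.testBit_ofBits_lt _ _ i.2]
  simp

theorem L14_adj (i j : Fin 14) : L14.Adj i j ↔ (tbl.getD i.1 0).testBit j.1 = true := Iff.rfl

theorem clq_code {σ : Fin 14 → Prop} (hσ : ∀ a b, σ a → σ b → a ≠ b → L14.Adj a b) :
    clq (code σ) = true := by
  unfold clq
  rw [List.all_eq_true]
  intro i hi
  have hi' : i < 14 := List.mem_range.1 hi
  by_cases h : (code σ).testBit i = true
  · rw [h, Bool.not_true, Bool.false_or, List.all_eq_true]
    intro j hj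
    have hj' : j < 14 := List.mem_range.1 hj
    by_cases h2 : (code σ).testBit j = true
    · rw [h2, Bool.not_true, Bool.false_or, Bool.or_eq_true]
      by_cases h3 : i = j
      · left; simpa using h3
      · right
        exact hσ ⟨i, hi'⟩ ⟨j, hj'⟩ ((testBit_code σ ⟨i, hi'⟩).1 h) ((testBit_code σ ⟨j, hj'⟩).1 h2)
          (fun h4 => h3 (congrArg Fin.val h4))
    · simp [h2]
  · simp [h]

theorem compl_testBit (A : ℕ) (hA : A < 2 ^ 14) (i : Fin 14) :
    (2 ^ 14 - 1 - A).testBit i.1 = true ↔ ¬ A.testBit i.1 = true := by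
  have h1 : 2 ^ 14 - 1 - A = 2 ^ 14 - (A + 1) := by omega
  rw [h1, Nat.testBit_two_pow_sub_succ hA]
  simp [i.2]

theorem okp_spec {σ : Fin 14 → Prop} {s t : Fin 14} (h : okp (code σ) s.1 t.1 = true) :
    ¬ σ s ∧ ¬ σ t ∧ ∀ a, σ a → ¬ (L14.Adj s a ∧ L14.Adj t a) := by
  unfold okp at h
  rw [Bool.and_eq_true, Bool.and_eq_true, Bool.not_eq_true', Bool.not_eq_true', beq_iff_eq] at h
  obtain ⟨⟨h1, h2⟩, h3⟩ := h
  refine ⟨fun h => ?_, fun h => ?_, fun a ha ⟨h4, h5⟩ => ?_⟩
  · rw [(testBit_code σ s).2 h] at h1; exact absurd h1 (by decide)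
  · rw [(testBit_code σ t).2 h] at h2; exact absurd h2 (by decide)
  · have h6 : (code σ &&& tbl.getD s.1 0 &&& tbl.getD t.1 0).testBit a.1 = true := by
      rw [Nat.testBit_and, Nat.testBit_and, (testBit_code σ a).2 ha,
        (L14_adj s a).1 h4, (L14_adj t a).1 h5]
      rfl
    rw [h3] at h6
    simp at h6

/-- (L4): the complement of a clique is connected. -/
theorem joined_compl {σ : Fin 14 → Prop} (hσ : ∀ a b, σ a → σ b → a ≠ b → L14.Adj a b)
    (i j : Fin 14) (hi : ¬ σ i) (hj : ¬ σ j) : Joined (fun a => ¬ σ a) i j := by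
  have h := chk_all _ (code_lt σ)
  unfold chk at h
  rw [clq_code hσ, Bool.not_true, Bool.false_or, Bool.and_eq_true] at h
  have h2 := joined_of_conn (A := 2 ^ 14 - 1 - code σ) (by omega) h.1 i j
    ((compl_testBit _ (code_lt σ) i).2 (by rwa [testBit_code]))
    ((compl_testBit _ (code_lt σ) j).2 (by rwa [testBit_code]))
  have h3 : (fun a : Fin 14 => (2 ^ 14 - 1 - code σ).testBit a.1 = true) = fun a => ¬ σ a := by
    funext a
    rw [compl_testBit _ (code_lt σ), testBit_code]
  rwa [h3] at h2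

/-- (L5) -/
theorem pair_of_clique {σ : Fin 14 → Prop} (hσ : ∀ a b, σ a → σ b → a ≠ b → L14.Adj a b) :
    (¬ σ 1 ∧ ¬ σ 2 ∧ ∀ a, σ a → ¬ (L14.Adj 1 a ∧ L14.Adj 2 a)) ∨
    (¬ σ 4 ∧ ¬ σ 5 ∧ ∀ a, σ a → ¬ (L14.Adj 4 a ∧ L14.Adj 5 a)) := by
  have h := chk_all _ (code_lt σ)
  unfold chk at h
  rw [clq_code hσ, Bool.not_true, Bool.false_or, Bool.and_eq_true, Bool.or_eq_true] at h
  rcases h.2 with h | h
  · exact Or.inl (okp_spec (s := 1) (t := 2) h)
  · exact Or.inr (okp_spec (s := 4) (t := 5) h)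

/-- The ascending set of a sign vector. -/
def asc (b : Fin 3 → Bool) (i : Fin 14) : Bool := (b (cls i)) == decide (tau i = 1)

theorem asc_conn : ∀ b0 b1 b2 : Bool,
    conn (Nat.ofBits (asc ![b0, b1, b2])) = true := by
  decide +kernel

theorem joined_asc (b : Fin 3 → Bool) (i j : Fin 14) (hi : asc b i = true) (hj : asc b j = true) :
    Joined (fun a => asc b a = true) i j := by
  have hb : b = ![b 0, b 1, b 2] := by
    funext c
    fin_cases c <;> rfl
  have h := asc_conn (b 0) (b 1) (b 2)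
  rw [← hb] at h
  have h1 : ∀ a : Fin 14, (Nat.ofBits (asc b)).testBit a.1 = asc b a := fun a =>
    Nat.testBit_ofBits_lt _ _ a.2
  have h2 := joined_of_conn (Nat.ofBits_lt_two_pow _) h i j (by rw [h1, hi]) (by rw [h1, hj])
  have h3 : (fun a : Fin 14 => (Nat.ofBits (asc b)).testBit a.1 = true) =
      fun a => asc b a = true := by
    funext a
    rw [h1]
  rwa [h3] at h2

theorem tau_eq (i : Fin 14) : tau i = 1 ∨ tau i = -1 := by
  unfold tau
  split_ifs <;> simp

theorem joined_sign (ε : Fin 3 → ℤ) (hε : ∀ c, ε c = 1 ∨ ε c = -1) (δ : ℤ) (hδ : δ = 1 ∨ δ = -1)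
    (i j : Fin 14) (hi : ε (cls i) * tau i = δ) (hj : ε (cls j) * tau j = δ) :
    Joined (fun a => ε (cls a) * tau a = δ) i j := by
  have key : ∀ a, asc (fun c => decide (ε c = δ)) a = true ↔ ε (cls a) * tau a = δ := by
    intro a
    unfold asc
    rcases hε (cls a) with h | h <;> rcases tau_eq a with h' | h' <;> rcases hδ with h'' | h'' <;>
      simp [h, h', h'']
  have h := joined_asc (fun c => decide (ε c = δ)) i j ((key i).2 hi) ((key j).2 hj)
  have h3 : (fun a : Fin 14 => asc (fun c => decide (ε c = δ)) a = true) =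
      fun a => ε (cls a) * tau a = δ := by
    funext a
    rw [key]
  rwa [h3] at h

theorem cls_ne_of_adj : ∀ i j : Fin 14, L14.Adj i j → cls i ≠ cls j := by
  decide +kernel

end Pool.Agent.helper83.LC
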