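import Mathlib
import Pool.Agent.helper83.LC.Base
import Pool.Agent.helper83.LC.Cliques

/-!
# The homomorphism to `(D_∞)^3`, the height `f` and the subgroup `Q`
-/

set_option autoImplicit false

namespace Pool.Agent.helper83.LC

open Pool.Agent.helper99.LC

/-- The reflection `n ↦ a - n` of `ℤ`. -/
def rfl' (a : ℤ) : Equiv.Perm ℤ where
  toFun n := a - n
  invFun n := a - n
  left_inv n := by ring
  right_inv n := by ring

theorem rfl'_apply (a n : ℤ) : rfl' a n = a - n := rfl

/-- The image of a generator in the `c`-th factor. -/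
def phg (c : Fin 3) (s : Fin 14) : Equiv.Perm ℤ := if cls s = c then rfl' (tau s) else 1

theorem phg_sq (c : Fin 3) (s : Fin 14) : phg c s * phg c s = 1 := by
  unfold phg
  split_ifs
  · ext n
    rw [Equiv.Perm.mul_apply, rfl'_apply, rfl'_apply]
    simp
  · simp

theorem phg_comm (c : Fin 3) (s t : Fin 14) (h : L14.Adj s t) :
    phg c s * phg c t = phg c t * phg c s := by
  unfold phg
  have := cls_ne_of_adj s t h
  by_cases h1 : cls s = c
  · have h2 : cls t ≠ c := fun h2 => this (h1.trans h2.symm)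
    rw [if_neg h2, one_mul, mul_one]
  · rw [if_neg h1, one_mul, mul_one]

/-- The homomorphism to the `c`-th factor. -/
noncomputable def ph (c : Fin 3) : RW L14 →* Equiv.Perm ℤ :=
  lift L14 (phg c) (phg_sq c) (phg_comm c)

theorem ph_gen (c : Fin 3) (s : Fin 14) : ph c (gen L14 s) = phg c s := lift_gen L14 _ _ _ s

/-- Translation part. -/
noncomputable def mm (c : Fin 3) (g : RW L14) : ℤ := ph c g 0

/-- Linear part. -/
noncomputable def ee (c : Fin 3) (g : RW L14) : ℤ := ph c g 1 - ph c g 0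

theorem ph_affine (c : Fin 3) (g : RW L14) :
    (∀ n, ph c g n = ee c g * n + mm c g) ∧ (ee c g = 1 ∨ ee c g = -1) := by
  induction g using gen_induction L14 with
  | h1 => simp [ee, mm]
  | h2 s g ih =>
    obtain ⟨h1, h2⟩ := ih
    by_cases hc : cls s = c
    · have h3 : ∀ n, ph c (gen L14 s * g) n = tau s - (ee c g * n + mm c g) := by
        intro n
        rw [map_mul, Equiv.Perm.mul_apply, ph_gen, phg, if_pos hc, rfl'_apply, h1]
      have h4 : ee c (gen L14 s * g) = - ee c g := by
        rw [ee, h3, h3]; ring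
      have h5 : mm c (gen L14 s * g) = tau s - mm c g := by
        rw [mm, h3]; ring
      refine ⟨fun n => ?_, ?_⟩
      · rw [h3, h4, h5]; ring
      · rw [h4]
        rcases h2 with h | h <;> rw [h] <;> simp
    · have h3 : ∀ n, ph c (gen L14 s * g) n = ee c g * n + mm c g := by
        intro n
        rw [map_mul, Equiv.Perm.mul_apply, ph_gen, phg, if_neg hc, Equiv.Perm.one_apply, h1]
      have h4 : ee c (gen L14 s * g) = ee c g := by
        rw [ee, h3, h3]; ring
      have h5 : mm c (gen L14 s * g) = mm c g := by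
        rw [mm, h3]; ring
      refine ⟨fun n => ?_, ?_⟩
      · rw [h3, h4, h5]
      · rw [h4]; exact h2

theorem ph_apply (c : Fin 3) (g : RW L14) (n : ℤ) : ph c g n = ee c g * n + mm c g :=
  (ph_affine c g).1 n

theorem ee_eq (c : Fin 3) (g : RW L14) : ee c g = 1 ∨ ee c g = -1 := (ph_affine c g).2

theorem mm_mul (c : Fin 3) (g h : RW L14) : mm c (g * h) = ee c g * mm c h + mm c g := by
  rw [mm, map_mul, Equiv.Perm.mul_apply, ph_apply c g]
  rfl

theorem ee_mul (c : Fin 3) (g h : RW L14) : ee c (g * h) = ee c g * ee c h := by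
  have h1 : ee c (g * h) = ph c (g * h) 1 - ph c (g * h) 0 := rfl
  have h2 : ee c h = ph c h 1 - ph c h 0 := rfl
  rw [h1, map_mul, Equiv.Perm.mul_apply, Equiv.Perm.mul_apply, ph_apply c g, ph_apply c g, h2]
  ring

theorem ee_one (c : Fin 3) : ee c 1 = 1 := by simp [ee]

theorem mm_one (c : Fin 3) : mm c 1 = 0 := by simp [mm]

theorem ee_gen (c : Fin 3) (s : Fin 14) : ee c (gen L14 s) = if cls s = c then -1 else 1 := by
  rw [ee, ph_gen, phg]
  split_ifs
  · rw [rfl'_apply, rfl'_apply]; ring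
  · simp

theorem mm_gen (c : Fin 3) (s : Fin 14) : mm c (gen L14 s) = if cls s = c then tau s else 0 := by
  rw [mm, ph_gen, phg]
  split_ifs
  · rw [rfl'_apply]; ring
  · simp

/-- The height. -/
noncomputable def ff (g : RW L14) : ℤ := ∑ c : Fin 3, mm c g

theorem ff_one : ff 1 = 0 := by simp [ff, mm_one]

theorem ff_mul_gen (g : RW L14) (s : Fin 14) :
    ff (g * gen L14 s) = ff g + ee (cls s) g * tau s := by
  unfold ff
  have h : ∀ c, mm c (g * gen L14 s) = mm c g + if cls s = c then ee c g * tau s else 0 := by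
    intro c
    rw [mm_mul, mm_gen]
    split_ifs
    · ring
    · ring
  rw [Finset.sum_congr rfl fun c _ => h c, Finset.sum_add_distrib]
  simp

theorem ff_step (g : RW L14) (s : Fin 14) :
    ff (g * gen L14 s) = ff g + 1 ∨ ff (g * gen L14 s) = ff g - 1 := by
  rw [ff_mul_gen]
  rcases ee_eq (cls s) g with h | h <;> rcases tau_eq s with h' | h' <;> rw [h, h'] <;> simp <;>
    omega

theorem ee_mul_gen_of_ne (g : RW L14) {c : Fin 3} {s : Fin 14} (h : cls s ≠ c) :
    ee c (g * gen L14 s) = ee c g := by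
  rw [ee_mul, ee_gen, if_neg h, mul_one]

/-- The subgroup `Q`. -/
noncomputable def QQ : Subgroup (RW L14) where
  carrier := {g | (∀ c, ee c g = 1) ∧ ff g = 0}
  one_mem' := ⟨fun c => ee_one c, ff_one⟩
  mul_mem' := by
    rintro g h ⟨hg1, hg2⟩ ⟨hh1, hh2⟩
    refine ⟨fun c => by rw [ee_mul, hg1, hh1, one_mul], ?_⟩
    unfold ff at *
    rw [Finset.sum_congr rfl fun c _ => mm_mul c g h]
    simp only [hg1, one_mul]
    rw [Finset.sum_add_distrib, hg2, hh2, add_zero]
  inv_mem' := by
    rintro g ⟨hg1, hg2⟩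
    have h1 : ∀ c, ee c g⁻¹ = 1 := by
      intro c
      have h := ee_mul c g g⁻¹
      rw [mul_inv_cancel, ee_one, hg1, one_mul] at h
      exact h.symm
    refine ⟨h1, ?_⟩
    have h2 : ∀ c, mm c g⁻¹ = - mm c g := by
      intro c
      have h := mm_mul c g g⁻¹
      rw [mul_inv_cancel, mm_one, hg1, one_mul] at h
      linarith
    unfold ff at *
    rw [Finset.sum_congr rfl fun c _ => h2 c, Finset.sum_neg_distrib, hg2, neg_zero]

theorem mem_QQ {g : RW L14} : g ∈ QQ ↔ (∀ c, ee c g = 1) ∧ ff g = 0 := Iff.rfl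

theorem ff_mul_of_mem {q : RW L14} (hq : q ∈ QQ) (g : RW L14) : ff (q * g) = ff g := by
  have h : ∀ c, mm c (q * g) = mm c g + mm c q := by
    intro c
    rw [mm_mul, (mem_QQ.1 hq).1 c, one_mul]
  unfold ff
  rw [Finset.sum_congr rfl fun c _ => h c, Finset.sum_add_distrib]
  have := (mem_QQ.1 hq).2
  unfold ff at this
  rw [this, add_zero]

theorem ee_mul_of_mem {q : RW L14} (hq : q ∈ QQ) (c : Fin 3) (g : RW L14) :
    ee c (q * g) = ee c g := by
  rw [ee_mul, (mem_QQ.1 hq).1 c, one_mul]

/-- Elements of the same type are in the same coset. -/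
theorem mul_inv_mem {g h : RW L14} (h1 : ∀ c, ee c g = ee c h) (h2 : ff g = ff h) :
    g * h⁻¹ ∈ QQ := by
  have hinv : ∀ c, ee c h⁻¹ = ee c h := by
    intro c
    have h3 := ee_mul c h h⁻¹
    rw [mul_inv_cancel, ee_one] at h3
    rcases ee_eq c h with h4 | h4
    · rw [h4] at h3 ⊢; linarith
    · rw [h4] at h3 ⊢; linarith
  have hminv : ∀ c, mm c h⁻¹ = - (ee c h * mm c h) := by
    intro c
    have h3 := mm_mul c h h⁻¹
    rw [mul_inv_cancel, mm_one] at h3
    rcases ee_eq c h with h4 | h4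
    · rw [h4] at h3 ⊢; linarith
    · rw [h4] at h3 ⊢; linarith
  rw [mem_QQ]
  constructor
  · intro c
    rw [ee_mul, hinv, h1]
    rcases ee_eq c h with h4 | h4 <;> rw [h4] <;> norm_num
  · have h5 : ∀ c, mm c (g * h⁻¹) = mm c g - mm c h := by
      intro c
      rw [mm_mul, hminv, h1]
      rcases ee_eq c h with h4 | h4 <;> rw [h4] <;> ring
    unfold ff at *
    rw [Finset.sum_congr rfl fun c _ => h5 c, Finset.sum_sub_distrib, h2, sub_self]

theorem gen_mul_gen_mem {s t : Fin 14} (h1 : cls s = cls t) (h2 : tau s = tau t)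
    (w : RW L14) : w * (gen L14 s * gen L14 t) * w⁻¹ ∈ QQ := by
  have h3 : w * (gen L14 s * gen L14 t) * w⁻¹ = (w * (gen L14 s * gen L14 t)) * w⁻¹ := rfl
  have key : ∀ c, ph c (gen L14 s * gen L14 t) = 1 := by
    intro c
    rw [map_mul, ph_gen, ph_gen]
    have : phg c t = phg c s := by unfold phg; rw [h1, h2]
    rw [this, phg_sq]
  have key2 : ∀ c, ph c (w * (gen L14 s * gen L14 t) * w⁻¹) = 1 := by
    intro c
    rw [map_mul, map_mul, key, mul_one, ← map_mul, mul_inv_cancel, map_one]
  rw [mem_QQ]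
  constructor
  · intro c
    rw [ee, key2]; simp
  · unfold ff
    simp [mm, key2]

end Pool.Agent.helper83.LC
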