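import Mathlib
import Pool.Agent.helper83.LC.Push
import Pool.Agent.helper83.LC.Zf

/-!
# Module P2: the subgroup `Q` of the page
-/

set_option autoImplicit false

namespace Pool.Agent.helper83.LC

open Pool.Agent.helper99.LC

/-- Descents commute. -/
theorem adj_of_desc (F : RFacts L14) {g : RW L14} {s t : Fin 14} (hs : Desc L14 g s)
    (ht : Desc L14 g t) (h : s ≠ t) : L14.Adj s t := by
  unfold Desc at hs ht
  exact F.desc_comm g s t h (by omega) (by omega)

/-- (R3) -/
theorem len_add (F : RFacts L14) {x y : RW L14}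
    (h : ∀ s, Desc L14 x s → Desc L14 y s → False) :
    rlen L14 (x⁻¹ * y) = rlen L14 x + rlen L14 y := by
  refine F.disj x y fun s hs => ?_
  exact h s (desc_of_lt L14 hs.1) (desc_of_lt L14 hs.2)

theorem rlen_mul_gen_of_not {g : RW L14} {s : Fin 14} (h : ¬ Desc L14 g⁻¹ s) :
    rlen L14 (g * gen L14 s) = rlen L14 g + 1 := by
  have h1 := not_desc L14 h
  have h2 : gen L14 s * g⁻¹ = (g * gen L14 s)⁻¹ := by rw [mul_inv_rev, gen_inv]
  rw [h2, len_inv, len_inv] at h1
  exact h1

theorem not_desc_of_rlen {g : RW L14} {s : Fin 14}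
    (h : rlen L14 (g * gen L14 s) = rlen L14 g + 1) : ¬ Desc L14 g⁻¹ s := by
  intro h'
  unfold Desc at h'
  have h2 : gen L14 s * g⁻¹ = (g * gen L14 s)⁻¹ := by rw [mul_inv_rev, gen_inv]
  rw [h2, len_inv, len_inv] at h'
  omega

theorem rlen_mul_gen (g : RW L14) (s : Fin 14) :
    rlen L14 (g * gen L14 s) = rlen L14 g + 1 ∨ rlen L14 (g * gen L14 s) + 1 = rlen L14 g := by
  have h := len_gen_mul L14 s g⁻¹
  have h2 : gen L14 s * g⁻¹ = (g * gen L14 s)⁻¹ := by rw [mul_inv_rev, gen_inv]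
  rwa [h2, len_inv, len_inv] at h

section

variable (P : Page (RW L14) (Fin 14)) (hgen : P.gen = gen L14)

include hgen in
theorem path_up {x y : RW L14} (hx : 0 ≤ ff x) (hy : 0 ≤ ff y) :
    P.PathIn (fun w => 0 ≤ ff w) x y := by
  have h := push_iterate (P := P) (Z := fun _ => True) ff
    (by rw [hgen]; exact ff_step) 0 (by
      rw [hgen]
      intro n hn g hg _ s t _ _ hs ht
      rw [ff_mul_gen, hg] at hs ht
      have hj := joined_sign (fun c => ee c g) (fun c => ee_eq c g) 1 (Or.inl rfl) s t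
        (by show ee (cls s) g * tau s = 1; omega) (by show ee (cls t) g * tau t = 1; omega)
      rw [← hgen]
      refine loc_of_chain (P := P) (Z := fun _ => True) ff n g
        (fun a => ee (cls a) g * tau a = 1) L14.Adj ?_ ?_
        (by show ee (cls s) g * tau s = 1; omega) hj
      · intro a ha
        rw [hgen, ff_mul_gen, hg, ha]
        exact ⟨trivial, rfl⟩
      · intro a b ha hb hab
        rw [hgen]
        refine ⟨gen_comm L14 hab, trivial, ?_⟩
        rw [ff_mul_gen, ee_mul_gen_of_ne _ (cls_ne_of_adj a b hab), hb, ff_mul_gen, hg, ha]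
        ring) hx hy (pathIn_univ x y)
  exact pathIn_mono (fun w hw => hw.2) h

include hgen in
theorem path_slab {x y : RW L14} (hx : 0 ≤ ff x ∧ ff x ≤ 1) (hy : 0 ≤ ff y ∧ ff y ≤ 1) :
    P.PathIn (fun w => 0 ≤ ff w ∧ ff w ≤ 1) x y := by
  have h := push_iterate (P := P) (Z := fun w => 0 ≤ ff w) (fun w => - ff w)
    (by
      rw [hgen]
      intro g s
      rcases ff_step g s with h | h <;> rw [h] <;> omega) (-1) (by
      rw [hgen]
      intro n hn g hg hg0 s t _ _ hs ht
      simp only [ff_mul_gen] at hs ht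
      have hj := joined_sign (fun c => ee c g) (fun c => ee_eq c g) (-1) (Or.inr rfl) s t
        (by show ee (cls s) g * tau s = -1; omega) (by show ee (cls t) g * tau t = -1; omega)
      rw [← hgen]
      refine loc_of_chain (P := P) (Z := fun w => 0 ≤ ff w) (fun w => - ff w) n g
        (fun a => ee (cls a) g * tau a = -1) L14.Adj ?_ ?_
        (by show ee (cls s) g * tau s = -1; omega) hj
      · intro a ha
        rw [hgen, ff_mul_gen, ha]
        constructor <;> omega
      · intro a b ha hb hab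
        rw [hgen]
        rw [ff_mul_gen, ee_mul_gen_of_ne _ (cls_ne_of_adj a b hab), hb, ff_mul_gen, ha]
        exact ⟨gen_comm L14 hab, by omega, by omega⟩) (by omega) (by omega)
        (path_up P hgen hx.1 hy.1)
  exact pathIn_mono (fun w hw => ⟨hw.1, by have := hw.2; omega⟩) h

/-- The type of an element. -/
noncomputable def typ (g : RW L14) : (Fin 3 → Bool) × Bool :=
  (fun c => decide (ee c g = 1), decide (ff g = 0))

theorem mul_inv_mem_of_typ {g h : RW L14} (hg : 0 ≤ ff g ∧ ff g ≤ 1) (hh : 0 ≤ ff h ∧ ff h ≤ 1)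
    (ht : typ g = typ h) : g * h⁻¹ ∈ QQ := by
  have h1 := congrArg Prod.fst ht
  have h2 := congrArg Prod.snd ht
  refine mul_inv_mem (fun c => ?_) ?_
  · have h3 := congrFun h1 c
    simp only [typ, decide_eq_decide] at h3
    rcases ee_eq c g with h4 | h4 <;> rcases ee_eq c h with h5 | h5 <;> omega
  · simp only [typ, decide_eq_decide] at h2
    omega

open Classical in
/-- Representatives. -/
noncomputable def rep (o : (Fin 3 → Bool) × Bool) : RW L14 :=
  if o = typ 1 then 1 else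
    if h : ∃ g, (0 ≤ ff g ∧ ff g ≤ 1) ∧ typ g = o then h.choose else 1

theorem rep_spec {g : RW L14} (hg : 0 ≤ ff g ∧ ff g ≤ 1) :
    (0 ≤ ff (rep (typ g)) ∧ ff (rep (typ g)) ≤ 1) ∧ typ (rep (typ g)) = typ g := by
  classical
  by_cases h : typ g = typ 1
  · rw [rep, if_pos h, ff_one]
    exact ⟨⟨le_refl _, by norm_num⟩, h.symm⟩
  · have h2 : ∃ g', (0 ≤ ff g' ∧ ff g' ≤ 1) ∧ typ g' = typ g := ⟨g, hg, rfl⟩
    rw [rep, if_neg h, dif_pos h2]
    exact h2.choose_spec

theorem rep_one : rep (typ 1) = 1 := by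
  classical
  rw [rep, if_pos rfl]

include hgen in
theorem QQ_fg : QQ.FG := by
  rw [Subgroup.fg_iff]
  let T := (Fin 3 → Bool) × Bool
  let gens : Set (RW L14) :=
    Set.range (fun p : T × Fin 14 × T => rep p.1 * gen L14 p.2.1 * (rep p.2.2)⁻¹) ∩ QQ
  have hfin : gens.Finite := (Set.finite_range _).inter_of_left _
  have hle : Subgroup.closure gens ≤ QQ := by
    rw [Subgroup.closure_le]
    exact Set.inter_subset_right
  refine ⟨gens, le_antisymm hle ?_, hfin⟩
  have key : ∀ g, P.PathIn (fun w => 0 ≤ ff w ∧ ff w ≤ 1) 1 g →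
      g * (rep (typ g))⁻¹ ∈ Subgroup.closure gens := by
    intro g hg
    induction hg with
    | refl _ =>
      rw [rep_one, inv_one, mul_one]
      exact Subgroup.one_mem _
    | step y s hy hys ih =>
      rw [hgen] at hys ⊢
      have h1 : y * gen L14 s * (rep (typ (y * gen L14 s)))⁻¹ ∈ QQ :=
        mul_inv_mem_of_typ hys (rep_spec hys).1 (rep_spec hys).2.symm
      have h2 : rep (typ y) * gen L14 s * (rep (typ (y * gen L14 s)))⁻¹ =
          (y * (rep (typ y))⁻¹)⁻¹ * (y * gen L14 s * (rep (typ (y * gen L14 s)))⁻¹) := by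
        group
      have h3 : rep (typ y) * gen L14 s * (rep (typ (y * gen L14 s)))⁻¹ ∈ gens := by
        refine ⟨⟨(typ y, s, typ (y * gen L14 s)), rfl⟩, ?_⟩
        rw [h2]
        exact QQ.mul_mem (QQ.inv_mem (hle ih)) h1
      have h4 : y * gen L14 s * (rep (typ (y * gen L14 s)))⁻¹ =
          (y * (rep (typ y))⁻¹) * (rep (typ y) * gen L14 s * (rep (typ (y * gen L14 s)))⁻¹) := by
        group
      rw [h4]
      exact Subgroup.mul_mem _ ih (Subgroup.subset_closure h3)
  intro g hg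
  have h0 : ff g = 0 := (mem_QQ.1 hg).2
  have h1 := key g (path_slab P hgen (by rw [ff_one]; norm_num) (by rw [h0]; norm_num))
  have h2 : typ g = typ 1 := by
    unfold typ
    rw [h0, ff_one]
    refine Prod.ext (funext fun c => ?_) rfl
    simp only [decide_eq_decide]
    rw [(mem_QQ.1 hg).1 c, ee_one]
  rwa [h2, rep_one, inv_one, mul_one] at h1

end

/-! ### The line -/

theorem ff_mul_gg (g : RW L14) :
    ff (g * (gen L14 0 * gen L14 3)) = ff g + 2 * ee 0 g ∧
    ∀ c, ee c (g * (gen L14 0 * gen L14 3)) = ee c g := by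
  constructor
  · rw [← mul_assoc, ff_mul_gen, ff_mul_gen, ee_mul, ee_gen]
    rw [show cls 0 = 0 from rfl, show cls 3 = 0 from rfl, show tau 0 = 1 from rfl,
      show tau 3 = -1 from by decide]
    simp
    ring
  · intro c
    rw [← mul_assoc, ee_mul, ee_mul, ee_gen, ee_gen]
    rw [show cls 0 = 0 from rfl, show cls 3 = 0 from rfl]
    split_ifs <;> ring

theorem ff_zpow (k : ℤ) : ff ((gen L14 0 * gen L14 3) ^ k) = 2 * k ∧
    ∀ c, ee c ((gen L14 0 * gen L14 3) ^ k) = 1 := by
  induction k with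
  | zero => simp [ff_one, ee_one]
  | succ k ih =>
    have h := ff_mul_gg ((gen L14 0 * gen L14 3) ^ (k : ℤ))
    rw [← zpow_add_one] at h
    refine ⟨?_, fun c => by rw [h.2, ih.2]⟩
    rw [h.1, ih.1, ih.2]
    ring
  | pred k ih =>
    have h := ff_mul_gg ((gen L14 0 * gen L14 3) ^ (-(k : ℤ) - 1))
    rw [← zpow_add_one, sub_add_cancel] at h
    have h2 : ∀ c, ee c ((gen L14 0 * gen L14 3) ^ (-(k : ℤ) - 1)) = 1 := by
      intro c
      rw [← h.2 c, ih.2]
    refine ⟨?_, h2⟩
    have h3 := h.1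
    rw [ih.1, h2] at h3
    linarith

theorem ff_eLine (n : ℤ) : ff (eLine L14 0 3 n) = n := by
  unfold eLine
  split_ifs with h
  · rw [mul_one, (ff_zpow _).1]
    omega
  · rw [ff_mul_gen, (ff_zpow _).1, (ff_zpow _).2, show tau 0 = 1 from rfl]
    omega

/-! ### Rich elements -/

theorem not_adj_of_cls {s t : Fin 14} (h : cls s = cls t) : ¬ L14.Adj s t :=
  fun h' => cls_ne_of_adj s t h' h

theorem desc_step (F : RFacts L14) {g : RW L14} {s t : Fin 14} (hst : cls s = cls t)
    (hne : s ≠ t) (h : ∀ a, Desc L14 g a → a = s) :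
    (∀ a, Desc L14 (gen L14 t * g) a → a = t) ∧ rlen L14 (gen L14 t * g) = rlen L14 g + 1 := by
  have h1 : ¬ Desc L14 g t := fun h' => hne (h t h').symm
  refine ⟨fun a ha => ?_, not_desc L14 h1⟩
  by_contra hat
  have h2 : Desc L14 (gen L14 t * g) t := (desc_gen_mul L14).2 h1
  have h3 := adj_of_desc F ha h2 hat
  have h4 := (desc_comm L14 h3.symm).1 ha
  rw [h a h4] at h3
  exact not_adj_of_cls hst h3

theorem pow_desc (F : RFacts L14) {s t : Fin 14} (hst : cls s = cls t) (hne : s ≠ t) (n : ℕ) :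
    (∀ a, Desc L14 ((gen L14 s * gen L14 t) ^ n) a → a = s) ∧
      rlen L14 ((gen L14 s * gen L14 t) ^ n) = 2 * n := by
  induction n with
  | zero =>
    rw [pow_zero]
    refine ⟨fun a ha => absurd ha (not_desc_one L14 a), len_one L14⟩
  | succ n ih =>
    have h1 := desc_step F hst hne ih.1
    have h2 := desc_step F hst.symm hne.symm h1.1
    rw [pow_succ', mul_assoc]
    refine ⟨h2.1, ?_⟩
    rw [h2.2, h1.2, ih.2]
    ring

theorem rich_aux (F : RFacts L14) (w : RW L14) {s t : Fin 14} (hst : cls s = cls t)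
    (hne : s ≠ t) (hs : ¬ Desc L14 w⁻¹ s) (ht : ¬ Desc L14 w⁻¹ t)
    (hc : ∀ a, Desc L14 w⁻¹ a → ¬ (L14.Adj s a ∧ L14.Adj t a)) :
    Desc L14 (gen L14 s * (gen L14 t * w⁻¹)) s ∧
    rlen L14 (w * (gen L14 s * (gen L14 t * w⁻¹))) =
      rlen L14 w + rlen L14 (gen L14 s * (gen L14 t * w⁻¹)) := by
  have h1 : Desc L14 (gen L14 t * w⁻¹) t := (desc_gen_mul L14).2 ht
  have h2 : ¬ Desc L14 (gen L14 t * w⁻¹) s := fun h =>
    not_adj_of_cls hst (adj_of_desc F h h1 hne)
  have h3 : Desc L14 (gen L14 s * (gen L14 t * w⁻¹)) s := (desc_gen_mul L14).2 h2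
  refine ⟨h3, ?_⟩
  have h4 := len_add F (x := w⁻¹) (y := gen L14 s * (gen L14 t * w⁻¹)) (by
    intro a ha ha'
    by_cases has : a = s
    · rw [has] at ha
      exact hs ha
    · have h5 := adj_of_desc F ha' h3 has
      have h6 := (desc_comm L14 h5.symm).1 ha'
      by_cases hat : a = t
      · rw [hat] at ha
        exact ht ha
      · have h7 := adj_of_desc F h6 h1 hat
        exact hc a ha ⟨h5.symm, h7.symm⟩)
  rwa [inv_inv, len_inv] at h4

/-- Facts on the gates needed from module P1. -/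
structure GFacts (P : Page (RW L14) (Fin 14)) : Prop where
  gen_eq : P.gen = gen L14
  len_eq : P.len = rlen L14
  e_eq : P.e = eLine L14 0 3
  gam1 : ∀ g s, s ≠ 0 → s ≠ 3 → rlen L14 (gen L14 s * g) < rlen L14 g → (P.γ g).natAbs ≤ 1
  gam0 : ∀ g, ¬ rlen L14 (gen L14 0 * g) < rlen L14 g → ¬ rlen L14 (gen L14 3 * g) < rlen L14 g →
    P.γ g = 0
  gamE : ∀ n g, P.γ (eLine L14 0 3 n * g) = n + P.γ g ∨ P.γ (eLine L14 0 3 n * g) = n - P.γ g

theorem rich (F : RFacts L14) {P : Page (RW L14) (Fin 14)} (hP : GFacts P) (w : RW L14) :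
    ∃ q ∈ QQ, P.len q = P.len w + P.len (w⁻¹ * q) ∧
      ∀ p ∈ QQ, ∀ n, w = p * P.e n → (P.γ (p⁻¹ * q) - n).natAbs ≤ 1 := by
  have main : ∀ s t : Fin 14, cls s = cls t → tau s = tau t → s ≠ t → s ≠ 0 → s ≠ 3 →
      ¬ Desc L14 w⁻¹ s → ¬ Desc L14 w⁻¹ t →
      (∀ a, Desc L14 w⁻¹ a → ¬ (L14.Adj s a ∧ L14.Adj t a)) →
      ∃ q ∈ QQ, P.len q = P.len w + P.len (w⁻¹ * q) ∧
        ∀ p ∈ QQ, ∀ n, w = p * P.e n → (P.γ (p⁻¹ * q) - n).natAbs ≤ 1 := by
    intro s t h1 h2 h3 h4 h5 h6 h7 h8
    obtain ⟨h9, h10⟩ := rich_aux F w h1 h3 h6 h7 h8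
    have h11 := gen_mul_gen_mem h1 h2 w
    have h12 : w * (gen L14 s * gen L14 t) * w⁻¹ = w * (gen L14 s * (gen L14 t * w⁻¹)) := by
      group
    rw [h12] at h11
    refine ⟨_, h11, ?_, ?_⟩
    · rw [hP.len_eq, inv_mul_cancel_left]
      exact h10
    · intro p _ n hn
      have h13 : p⁻¹ * (w * (gen L14 s * (gen L14 t * w⁻¹))) =
          P.e n * (gen L14 s * (gen L14 t * w⁻¹)) := by
        have : p⁻¹ * w = P.e n := by rw [hn, inv_mul_cancel_left]
        rw [← mul_assoc, this]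
      rw [h13, hP.e_eq]
      have h14 := hP.gam1 (gen L14 s * (gen L14 t * w⁻¹)) s h4 h5 (by
        unfold Desc at h9; omega)
      rcases hP.gamE n (gen L14 s * (gen L14 t * w⁻¹)) with h | h <;> rw [h] <;> omega
  rcases pair_of_clique (σ := fun s => Desc L14 w⁻¹ s)
    (fun a b ha hb hab => adj_of_desc F ha hb hab) with ⟨h1, h2, h3⟩ | ⟨h1, h2, h3⟩
  · exact main 1 2 rfl rfl (by decide) (by decide) (by decide) h1 h2 h3
  · exact main 4 5 rfl rfl (by decide) (by decide) (by decide) h1 h2 h3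

theorem rich2 (F : RFacts L14) {P : Page (RW L14) (Fin 14)} (hP : GFacts P) (u : RW L14) :
    ∃ q : ℕ → RW L14, (∀ n, q n ∈ QQ) ∧ Function.Injective q ∧ (∀ n, P.γ (q n) = 0) ∧
      ∀ n, P.len (u⁻¹ * q n) = P.len u + P.len (q n) := by
  have main : ∀ s t : Fin 14, cls s = cls t → tau s = tau t → s ≠ t → s ≠ 0 → s ≠ 3 →
      ¬ Desc L14 u s →
      ∃ q : ℕ → RW L14, (∀ n, q n ∈ QQ) ∧ Function.Injective q ∧ (∀ n, P.γ (q n) = 0) ∧
        ∀ n, P.len (u⁻¹ * q n) = P.len u + P.len (q n) := by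
    intro s t h1 h2 h3 h4 h5 h6
    refine ⟨fun n => (gen L14 s * gen L14 t) ^ (n + 1), fun n => ?_, ?_, fun n => ?_, fun n => ?_⟩
    · have h := gen_mul_gen_mem h1 h2 1
      rw [one_mul, inv_one, mul_one] at h
      exact QQ.pow_mem h _
    · intro m n hmn
      have h := congrArg (rlen L14) hmn
      simp only [(pow_desc F h1 h3 _).2] at h
      omega
    · refine hP.gam0 _ (fun h => ?_) (fun h => ?_)
      · exact h4 ((pow_desc F h1 h3 _).1 _ (desc_of_lt L14 h)).symm
      · exact h5 ((pow_desc F h1 h3 _).1 _ (desc_of_lt L14 h)).symm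
    · rw [hP.len_eq]
      refine len_add F fun a ha ha' => ?_
      rw [(pow_desc F h1 h3 _).1 a ha'] at ha
      exact h6 ha
  by_cases h : Desc L14 u 1
  · refine main 2 1 rfl rfl (by decide) (by decide) (by decide) fun h' => ?_
    exact not_adj_of_cls (s := 1) (t := 2) rfl (adj_of_desc F h h' (by decide))
  · exact main 1 2 rfl rfl (by decide) (by decide) (by decide) h

theorem oneEnded (F : RFacts L14) {P : Page (RW L14) (Fin 14)} (hP : GFacts P) (n : ℕ)
    (x y : RW L14) (hx : n < P.len x) (hy : n < P.len y) :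
    P.PathIn (fun w => n < P.len w) x y := by
  have h := push_iterate (P := P) (Z := fun _ => True) (fun w => (P.len w : ℤ))
    (by
      rw [hP.gen_eq, hP.len_eq]
      intro g s
      rcases rlen_mul_gen g s with h | h <;> omega) (n + 1) (by
      intro m _ g hg _ s t _ _ hs ht
      refine loc_of_chain (P := P) (Z := fun _ => True) (fun w => (P.len w : ℤ)) m g
        (fun a => ¬ Desc L14 g⁻¹ a) L14.Adj ?_ ?_ ?_ (joined_compl
          (fun a b ha hb hab => adj_of_desc F ha hb hab) s t ?_ ?_)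
      · intro a ha
        refine ⟨trivial, ?_⟩
        have h1 := rlen_mul_gen_of_not ha
        rw [hP.len_eq] at hg
        simp only [hP.len_eq, hP.gen_eq]
        omega
      · intro a b ha hb hab
        have h1 := rlen_mul_gen_of_not ha
        have h2 : ¬ Desc L14 (g * gen L14 a)⁻¹ b := by
          rw [mul_inv_rev, gen_inv, desc_comm L14 hab]
          exact hb
        have h3 := rlen_mul_gen_of_not h2
        rw [hP.len_eq] at hg
        simp only [hP.len_eq, hP.gen_eq]
        refine ⟨gen_comm L14 hab, trivial, ?_⟩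
        omega
      all_goals
        simp only [hP.len_eq, hP.gen_eq] at hg hs ht
        refine not_desc_of_rlen ?_
        omega) (by show (n : ℤ) + 1 ≤ P.len x; omega) (by show (n : ℤ) + 1 ≤ P.len y; omega)
        (pathIn_univ x y)
  exact pathIn_mono (fun w hw => by have := hw.2; omega) h

/-- Assembly of the page. -/
noncomputable def pageQ (F : RFacts L14) (P : Page (RW L14) (Fin 14)) (hP : GFacts P) :
    PageQ (RW L14) (Fin 14) where
  toPage := P
  Q := QQ
  fg := QQ_fg P hP.gen_eq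
  Q_e := by
    intro n hn
    rw [hP.e_eq] at hn
    have := (mem_QQ.1 hn).2
    rwa [ff_eLine] at this
  rich := rich F hP
  rich2 := rich2 F hP
  oneEnded := oneEnded F hP

theorem exists_pageQ_of (F : RFacts L14) (P : Page (RW L14) (Fin 14)) (hP : GFacts P) :
    ∃ (W : Type) (_ : Group W) (S : Type) (_ : Fintype S), Nonempty (PageQ W S) :=
  ⟨RW L14, inferInstance, Fin 14, inferInstance, ⟨pageQ F P hP⟩⟩

end Pool.Agent.helper83.LC
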